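import Pool.Agent.HIL.Main

/-!
# Sixth powers of linear forms of equal norm representing `(a² + b² + c² + d²)³`

If `(x₀² + x₁² + x₂² + x₃²)³` is the sum of the sixth powers of `N` real linear forms whose
coefficient vectors all have the same Euclidean norm, then `N ≥ 22`.
-/

set_option autoImplicit false

namespace Pool.Agent.Results.MP_c07d87_nt.EqualNorm

theorem result (N : ℕ) (v : Fin N → Fin 4 → ℝ) (ρ : ℝ)
    (hρ : ∀ k : Fin N, ∑ i : Fin 4, v k i ^ 2 = ρ)
    (h : ∀ x : Fin 4 → ℝ,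
      (∑ i : Fin 4, x i ^ 2) ^ 3 = ∑ k : Fin N, (∑ i : Fin 4, v k i * x i) ^ 6) :
    22 ≤ N := by
  refine Pool.Agent.HIL.le_of_equal_norm N v ρ ?_ ?_
  · intro k
    rw [← hρ k]
    simp only [dotProduct, pow_two]
  · intro x
    have h1 := h x
    have h2 : ∑ i : Fin 4, x i ^ 2 = x ⬝ᵥ x := by simp only [dotProduct, pow_two]
    rw [h2] at h1
    rw [h1]
    rfl

end Pool.Agent.Results.MP_c07d87_nt.EqualNorm
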